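import Mathlib
import Pool.Agent.Y920.AD.Stm2
import Pool.Agent.Y920.AD.Tri

/-!
# Project AD, lower bound: no cover of multiplicity `d - 1` with subexponential growth
-/

set_option autoImplicit false

namespace Pool.Agent.Y994.AD

open Pool.Agent.H983R3 Pool.Agent.Y920.AD

/-- the points of the grid on the horosphere of height one -/
noncomputable def gx {n : ℕ} (x : Fin (n + 1) → ℕ) : Hyp (n + 2) :=
  ⟨(WithLp.toLp 2 (fun a => (x a : ℝ)) : EuclideanSpace ℝ (Fin (n + 1))), 1, one_pos⟩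

lemma norm_gx {n : ℕ} (x y : Fin (n + 1) → ℕ) :
    ‖(gx x).x - (gx y).x‖ ^ 2 = ∑ a, ((x a : ℝ) - y a) ^ 2 := by
  have h := EuclideanSpace.real_norm_sq_eq
    ((WithLp.toLp 2 (fun a => (x a : ℝ)) : EuclideanSpace ℝ (Fin (n + 1))) -
      (WithLp.toLp 2 (fun a => (y a : ℝ)) : EuclideanSpace ℝ (Fin (n + 1))))
  exact h

lemma hdist_gx {n : ℕ} (x y : Fin (n + 1) → ℕ) (s : ℝ)
    (h : ∀ a, |(x a : ℝ) - y a| ≤ s) :
    hdist (gx x) (gx y) ≤ Real.arcosh (1 + (n + 1) * s ^ 2 / 2) := by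
  have hs : ∑ a, ((x a : ℝ) - y a) ^ 2 ≤ (n + 1) * s ^ 2 := by
    have h1 : ∀ a ∈ (Finset.univ : Finset (Fin (n + 1))), ((x a : ℝ) - y a) ^ 2 ≤ s ^ 2 := by
      intro a _
      rw [← sq_abs]
      exact pow_le_pow_left₀ (abs_nonneg _) (h a) 2
    refine (Finset.sum_le_sum h1).trans ?_
    rw [Finset.sum_const, Finset.card_univ, Fintype.card_fin, nsmul_eq_mul]
    push_cast
    exact le_rfl
  have h0 : (0 : ℝ) ≤ ∑ a, ((x a : ℝ) - y a) ^ 2 := Finset.sum_nonneg fun a _ => sq_nonneg _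
  unfold hdist
  have e1 : (gx x).h = 1 := rfl
  have e2 : (gx y).h = 1 := rfl
  rw [norm_gx, e1, e2, Real.arcosh_le_arcosh (by norm_num; positivity) (by positivity)]
  norm_num
  linarith

lemma arcosh_le_log {u : ℝ} (hu : 1 ≤ u) : Real.arcosh u ≤ Real.log (2 * u) := by
  have h0 : 0 < 2 * u := by linarith
  have h1 : 0 ≤ Real.log (2 * u) := Real.log_nonneg (by linarith)
  rw [← Real.arcosh_cosh h1, Real.arcosh_le_arcosh (by linarith) (Real.cosh_pos _)]
  rw [Real.cosh_log h0]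
  have : 0 < (2 * u)⁻¹ := inv_pos.2 h0
  linarith

theorem t_LOW (h : S_HEX) : S_LOW := by
  intro n Z hZ hA
  obtain ⟨R, hR⟩ := hZ.2
  choose z hzZ hz using fun x : Fin (n + 1) → ℕ => hR (gx x)
  have hR0 : 0 ≤ R := le_trans (hdist_nonneg _ _) (hz (fun _ => 0))
  set c : ℝ := Real.arcosh (1 + (n + 1) * (1 : ℝ) ^ 2 / 2) with hc
  have hc0 : 0 ≤ c := Real.arcosh_nonneg (by
    have : (0 : ℝ) ≤ (n + 1) * (1 : ℝ) ^ 2 / 2 := by positivity
    linarith)
  have hzz : ∀ x y : Fin (n + 1) → ℕ,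
      hdist (z x) (z y) ≤ 2 * R + hdist (gx x) (gx y) := by
    intro x y
    have h1 := t_TRI _ (z x) (gx x) (z y)
    have h2 := t_TRI _ (gx x) (gx y) (z y)
    have h3 := hz x
    have h4 := hz y
    rw [hdist_symm (z x) (gx x)] at h1
    linarith
  have hgg : ∀ x y : Fin (n + 1) → ℕ, z x = z y → hdist (gx x) (gx y) ≤ 2 * R := by
    intro x y hxy
    have h1 := t_TRI _ (gx x) (z x) (gx y)
    have h3 := hz x
    have h4 := hz y
    rw [hxy, hdist_symm (z y) (gx y)] at h1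
    rw [hxy] at h3
    linarith
  obtain ⟨ι, X, hU, hM, f, hf, hG⟩ := hA (2 * R + c + 1) (by linarith)
  have hid : ∀ x : Fin (n + 1) → ℕ, ∃ i, z x ∈ X i := by
    intro x
    have := hzZ x
    rw [← hU, Set.mem_iUnion] at this
    exact this
  choose idx hidx using hid
  -- the first alternative
  have alt : ∀ m : ℕ, ∃ (i : Fin (n + 1)) (t : ι), ∀ k ≤ m, ∃ x : Fin (n + 1) → ℕ,
      (∀ a, x a ≤ m) ∧ x i = k ∧ idx x = t := by
    intro m
    rcases h (n + 1) m ι idx with h1 | ⟨y, hy1, -, hy3⟩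
    · exact h1
    · exfalso
      have hsub : Set.range (fun j => idx (y j)) ⊆
          {i | ∃ w ∈ X i, hdist (z (y 0)) w ≤ 2 * R + c + 1} := by
        rintro _ ⟨j, rfl⟩
        refine ⟨z (y j), hidx _, ?_⟩
        have h2 : hdist (gx (y 0)) (gx (y j)) ≤ c := by
          refine hdist_gx _ _ 1 fun a => ?_
          have h3 : (y 0 a : ℝ) ≤ y j a + 1 := by exact_mod_cast hy1 0 j a
          have h4 : (y j a : ℝ) ≤ y 0 a + 1 := by exact_mod_cast hy1 j 0 a
          rw [abs_le]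
          constructor <;> linarith
        have h5 := hzz (y 0) (y j)
        linarith
      have h6 := (Set.encard_mono hsub).trans (hM (z (y 0)) (hzZ _))
      rw [← Set.image_univ, hy3.encard_image, Set.encard_univ, ENat.card_eq_coe_fintype_card,
        Fintype.card_fin] at h6
      have h7 : n + 1 + 1 ≤ n + 1 := by exact_mod_cast h6
      omega
  obtain ⟨M, hMR⟩ := exists_nat_gt (Real.exp (2 * R))
  have hM0 : (0 : ℝ) < M := lt_trans (Real.exp_pos _) hMR
  -- the growth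
  have key : ∀ q : ℕ, (q : ℝ) + 1 ≤ f (2 * R + Real.log (2 + (n + 1) * ((q * M : ℕ) : ℝ) ^ 2)) := by
    intro q
    obtain ⟨i, t, hit⟩ := alt (q * M)
    choose! x hx1 hx2 hx3 using hit
    have hle : ∀ j ∈ Finset.range (q + 1), j * M ≤ q * M := by
      intro j hj
      exact Nat.mul_le_mul_right M (Nat.lt_succ_iff.1 (Finset.mem_range.1 hj))
    set w : ℕ → Hyp (n + 2) := fun j => z (x (j * M)) with hw
    have hwX : ∀ j ∈ Finset.range (q + 1), w j ∈ X t := by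
      intro j hj
      have h1 := hidx (x (j * M))
      rw [hx3 _ (hle j hj)] at h1
      exact h1
    have hinj : Set.InjOn w (Finset.range (q + 1)) := by
      intro j hj l hl hjl
      by_contra hne
      have hj' := Finset.mem_coe.1 hj
      have hl' := Finset.mem_coe.1 hl
      have h1 := hgg _ _ hjl
      have h2 := horiz_le (by linarith) h1
      have e1 : (gx (x (j * M))).h = 1 := rfl
      rw [e1, mul_one] at h2
      have h3 : |(x (j * M) i : ℝ) - x (l * M) i| ≤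
          ‖(gx (x (j * M))).x - (gx (x (l * M))).x‖ := by
        refine abs_le_of_sq_le_sq ?_ (norm_nonneg _)
        rw [norm_gx]
        exact Finset.single_le_sum (f := fun a => ((x (j * M) a : ℝ) - x (l * M) a) ^ 2)
          (fun a _ => sq_nonneg _) (Finset.mem_univ i)
      rw [hx2 _ (hle j hj'), hx2 _ (hle l hl')] at h3
      have h4 : (M : ℝ) ≤ |((j * M : ℕ) : ℝ) - ((l * M : ℕ) : ℝ)| := by
        push_cast
        rw [← sub_mul, abs_mul, abs_of_pos hM0]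
        have h5 : (1 : ℝ) ≤ |(j : ℝ) - l| := by
          have h6 : (j : ℤ) - l ≠ 0 := by omega
          have h7 := Int.one_le_abs h6
          have h8 : ((1 : ℤ) : ℝ) ≤ ((|(j : ℤ) - l| : ℤ) : ℝ) := by exact_mod_cast h7
          push_cast at h8
          exact h8
        nlinarith
      linarith
    have hm0 : (1 : ℝ) ≤ 2 + (n + 1) * ((q * M : ℕ) : ℝ) ^ 2 := by
      have : (0 : ℝ) ≤ (n + 1) * ((q * M : ℕ) : ℝ) ^ 2 := by positivity
      linarith
    have hT0 : 0 ≤ 2 * R + Real.log (2 + (n + 1) * ((q * M : ℕ) : ℝ) ^ 2) := by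
      have := Real.log_nonneg hm0
      linarith
    have h0m : (0 : ℕ) ∈ Finset.range (q + 1) := Finset.mem_range.2 (Nat.succ_pos q)
    obtain ⟨hfin, hcard⟩ := hG t (w 0) (hwX 0 h0m) _ hT0
    have hdist0 : ∀ j ∈ Finset.range (q + 1), hdist (w 0) (w j) ≤
        2 * R + Real.log (2 + (n + 1) * ((q * M : ℕ) : ℝ) ^ 2) := by
      intro j hj
      have h1 := hzz (x (0 * M)) (x (j * M))
      have h2 : hdist (gx (x (0 * M))) (gx (x (j * M))) ≤
          Real.arcosh (1 + (n + 1) * ((q * M : ℕ) : ℝ) ^ 2 / 2) := by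
        refine hdist_gx _ _ _ fun a => ?_
        have h3 : (x (0 * M) a : ℝ) ≤ ((q * M : ℕ) : ℝ) := by
          exact_mod_cast hx1 _ (hle 0 h0m) a
        have h4 : (x (j * M) a : ℝ) ≤ ((q * M : ℕ) : ℝ) := by
          exact_mod_cast hx1 _ (hle j hj) a
        have h5 : (0 : ℝ) ≤ (x (0 * M) a : ℝ) := Nat.cast_nonneg _
        have h6 : (0 : ℝ) ≤ (x (j * M) a : ℝ) := Nat.cast_nonneg _
        rw [abs_le]
        constructor <;> linarith
      have h7 : Real.arcosh (1 + (n + 1) * ((q * M : ℕ) : ℝ) ^ 2 / 2) ≤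
          Real.log (2 + (n + 1) * ((q * M : ℕ) : ℝ) ^ 2) := by
        refine (arcosh_le_log ?_).trans (le_of_eq ?_)
        · have : (0 : ℝ) ≤ (n + 1) * ((q * M : ℕ) : ℝ) ^ 2 / 2 := by positivity
          linarith
        · congr 1
          ring
      show hdist (z (x (0 * M))) (z (x (j * M))) ≤ _
      linarith
    have hsub : w '' (Finset.range (q + 1) : Set ℕ) ⊆
        {y | y ∈ X t ∧ hdist (w 0) y ≤
          2 * R + Real.log (2 + (n + 1) * ((q * M : ℕ) : ℝ) ^ 2)} := by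
      rintro _ ⟨j, hj, rfl⟩
      exact ⟨hwX j (Finset.mem_coe.1 hj), hdist0 j (Finset.mem_coe.1 hj)⟩
    have h8 := Set.ncard_le_ncard hsub hfin
    rw [Set.InjOn.ncard_image hinj, Set.ncard_coe_finset, Finset.card_range] at h8
    have h9 : ((q + 1 : ℕ) : ℝ) ≤ _ := le_trans (by exact_mod_cast h8) hcard
    push_cast at h9 ⊢
    exact h9
  obtain ⟨t0, ht0⟩ := hf.2.2 (1 / 4) (by norm_num)
  set K : ℝ := Real.exp (2 * R) * (2 + (n + 1) * (M : ℝ) ^ 2) with hK
  obtain ⟨q, hq⟩ := exists_nat_gt (max (Real.exp t0) (max K 1))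
  have hq1 : Real.exp t0 < q := lt_of_le_of_lt (le_max_left _ _) hq
  have hq2 : K < q := lt_of_le_of_lt ((le_max_left _ _).trans (le_max_right _ _)) hq
  have hq3 : 1 < (q : ℝ) := lt_of_le_of_lt ((le_max_right _ _).trans (le_max_right _ _)) hq
  have hMone : (1 : ℝ) ≤ M := by
    have := Real.one_le_exp (by linarith : 0 ≤ 2 * R)
    linarith
  set T : ℝ := 2 * R + Real.log (2 + (n + 1) * ((q * M : ℕ) : ℝ) ^ 2) with hT
  have hn0 : (0 : ℝ) ≤ n := Nat.cast_nonneg n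
  have hpos : (0 : ℝ) < 2 + (n + 1) * ((q * M : ℕ) : ℝ) ^ 2 := by positivity
  have hbig : Real.exp t0 ≤ 2 + (n + 1) * ((q * M : ℕ) : ℝ) ^ 2 := by
    have h1 : (q : ℝ) ≤ ((q * M : ℕ) : ℝ) := by
      push_cast
      nlinarith
    have h2 : ((q * M : ℕ) : ℝ) ≤ ((q * M : ℕ) : ℝ) ^ 2 := by nlinarith
    have h3 : (0 : ℝ) ≤ n * ((q * M : ℕ) : ℝ) ^ 2 := by positivity
    linarith
  have hTt : t0 ≤ T := by
    have h1 : t0 ≤ Real.log (2 + (n + 1) * ((q * M : ℕ) : ℝ) ^ 2) := by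
      rw [Real.le_log_iff_exp_le hpos]
      exact hbig
    linarith
  have h1 := (key q).trans (ht0 T hTt)
  have h2 : ((q : ℝ) + 1) ^ 4 ≤ Real.exp T := by
    calc ((q : ℝ) + 1) ^ 4 ≤ (Real.exp (1 / 4 * T)) ^ 4 :=
          pow_le_pow_left₀ (by positivity) h1 4
      _ = Real.exp T := by
          rw [← Real.exp_nat_mul]
          congr 1
          push_cast
          ring
  have h3 : Real.exp T = Real.exp (2 * R) * (2 + (n + 1) * ((q * M : ℕ) : ℝ) ^ 2) := by
    rw [hT, Real.exp_add, Real.exp_log hpos]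
  have h4 : Real.exp T ≤ K * ((q : ℝ) + 1) ^ 2 := by
    rw [h3, hK, mul_assoc]
    refine mul_le_mul_of_nonneg_left ?_ (Real.exp_pos _).le
    push_cast
    have h5 : (0 : ℝ) ≤ (n + 1) * (M : ℝ) ^ 2 := by positivity
    have h6 : (q : ℝ) ^ 2 ≤ ((q : ℝ) + 1) ^ 2 := by nlinarith
    have h7 : (1 : ℝ) ≤ ((q : ℝ) + 1) ^ 2 := by nlinarith
    have h8 := mul_le_mul_of_nonneg_left h6 h5
    nlinarith
  have h5 : ((q : ℝ) + 1) ^ 2 * ((q : ℝ) + 1) ^ 2 ≤ K * ((q : ℝ) + 1) ^ 2 := by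
    calc ((q : ℝ) + 1) ^ 2 * ((q : ℝ) + 1) ^ 2 = ((q : ℝ) + 1) ^ 4 := by ring
      _ ≤ _ := h2.trans h4
  have h6 : ((q : ℝ) + 1) ^ 2 ≤ K := le_of_mul_le_mul_right h5 (by positivity)
  nlinarith

end Pool.Agent.Y994.AD
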